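import Pool.Agent.Q113.Lnk.Fin

/-!
# Turán's `(3,4)`-problem: the link of a single vertex

Turán's conjecture says that a `K_4^3`-free 3-graph on `n` vertices has at most `(5/54 + o(1)) n³` edges. The
link of a vertex `v` is the graph of the pairs which form an edge with `v`. In Turán's construction the
links have induced claws, paws, 4-cycles, diamonds, edges with two isolated vertices, and independent
sets of four vertices. Here it is proved that already the link of one vertex matters: for each of these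
six graphs `F` there are constants `μ, β` such that every vertex `v` of a `K_4^3`-free 3-graph with
density `t` (that is, with `t n³ / 6` edges), degree `d n² / 2` and `o(n⁴)` induced copies of `F` in its
link satisfies `d + μ t ≤ β + o(1)`. The constants are such that `t < 5/9` if `d ≥ t`. So

* if a single vertex of at least average degree has a link with `o(n⁴)` induced copies of one of the six
  graphs (for example a chordal link, or a claw-free link), then the density of the 3-graph is
  less than `5/9` (at most `.54962`, `.54956`, `.55286`, `.53696`, `.55505`, `.55542`, respectively);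
* if the density is at least `5/9`, then all vertices of degree at least `θ n²/2` have many induced
  copies of `F` in their links, where `θ` is `.52`, `.538`, `.543`, `.519`, `.554`, `.555`.

Outline: flag algebra certificates for pairs (a 3-graph, a graph on the same vertices), where the
graph is the link of the vertex: `K_4^3`-freeness means that the triangles of the graph are no edges.
-/

set_option autoImplicit false
open Finset
open scoped Classical

namespace Pool.Agent.Results.MP_466853_co.LinkOfOneVertex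

/-- The 3-graph `H` has no four vertices spanning all four triples. -/
def K43Free {n : ℕ} (H : Finset (Finset (Fin n))) : Prop :=
  ∀ S : Finset (Fin n), S.card = 4 → ∃ T ⊆ S, T.card = 3 ∧ T ∉ H

/-- The number of edges which contain the vertex `v`. -/
noncomputable def degree {n : ℕ} (H : Finset (Finset (Fin n))) (v : Fin n) : ℕ := (H.filter fun e => v ∈ e).card

/-- The link of the vertex `v` in the 3-graph `H` induces a graph isomorphic to `F` (a graph with the
vertices `0, 1, 2, 3`, given by its edges) on the four different vertices `f 0, f 1, f 2, f 3`, which are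
different from `v`. -/
def InducedInLink {n : ℕ} (H : Finset (Finset (Fin n))) (F : Finset (Finset (Fin 4))) (v : Fin n)
    (f : Fin 4 → Fin n) : Prop :=
  Function.Injective f ∧ (∀ i, f i ≠ v) ∧ ∃ σ : Equiv.Perm (Fin 4), ∀ i j : Fin 4, i ≠ j →
    (({v, f i, f j} : Finset (Fin n)) ∈ H ↔ ({σ i, σ j} : Finset (Fin 4)) ∈ F)

/-- The number of ordered quadruples in the link of `v` which induce a copy of `F` (every induced copy of `F` is
counted 24 times). -/
noncomputable def linkCopies {n : ℕ} (H : Finset (Finset (Fin n))) (F : Finset (Finset (Fin 4))) (v : Fin n) : ℕ :=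
  (univ.filter fun f : Fin 4 → Fin n => InducedInLink H F v f).card

/-- the claw `K_{1,3}` -/
def claw : Finset (Finset (Fin 4)) := {{0, 1}, {0, 2}, {0, 3}}
/-- the paw, a triangle with a pendant edge -/
def paw : Finset (Finset (Fin 4)) := {{0, 1}, {0, 2}, {1, 2}, {0, 3}}
/-- the cycle with four vertices -/
def fourCycle : Finset (Finset (Fin 4)) := {{0, 1}, {1, 2}, {0, 3}, {2, 3}}
/-- the diamond `K_4^-` -/
def diamond : Finset (Finset (Fin 4)) := {{0, 2}, {1, 2}, {0, 3}, {1, 3}, {2, 3}}
/-- an edge with two isolated vertices -/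
def oneEdge : Finset (Finset (Fin 4)) := {{0, 1}}
/-- four isolated vertices -/
def noEdge : Finset (Finset (Fin 4)) := ∅

/-- The six graphs `F` with the constants `μ`, `β`, `θ`. -/
noncomputable def table : List (Finset (Finset (Fin 4)) × ℝ × ℝ × ℝ) :=
  [(claw, 5, 329766 / 100000, 520 / 1000), (paw, 2, 164867 / 100000, 538 / 1000),
    (fourCycle, 4, 276427 / 100000, 543 / 1000), (diamond, 102 / 100, 108464 / 100000, 519 / 1000),
    (oneEdge, 3, 222017 / 100000, 554 / 1000), (noEdge, 5, 333250 / 100000, 555 / 1000)]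

theorem main {n : ℕ} (hn : 0 < n) (H : Finset (Finset (Fin n))) (h3 : ∀ e ∈ H, e.card = 3) (hK : K43Free H) (v : Fin n)
    {F : Finset (Finset (Fin 4))} {μ β : ℝ} (hV : Pool.Agent.Q113.Lnk.VIneq F μ β 4000) :
    2 * (degree H v : ℝ) * (n : ℝ) ^ 2 + μ * (6 * (H.card : ℝ) * n)
      ≤ β * (n : ℝ) ^ 4 + 4000 * linkCopies H F v + 40000 * (n : ℝ) ^ 3 := by
  have hne : (univ : Finset (Fin n)).Nonempty := ⟨⟨0, hn⟩, mem_univ _⟩
  have h := hV n H h3 hK univ hne v
  have e1 : Pool.Agent.Q113.Lnk.eIn H univ = H.card := by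
    unfold Pool.Agent.Q113.Lnk.eIn
    congr 1
    exact filter_true_of_mem fun e _ => subset_univ e
  have e2 : Pool.Agent.Q113.Lnk.dIn H univ v = degree H v := by
    unfold Pool.Agent.Q113.Lnk.dIn degree
    congr 1
    refine filter_congr fun e _ => ?_
    simp
  have e3 : Pool.Agent.Q113.Lnk.copies H F univ v = linkCopies H F v := by
    unfold Pool.Agent.Q113.Lnk.copies linkCopies
    congr 1
    refine filter_congr fun f _ => ?_
    unfold Pool.Agent.Q113.Lnk.LinkIso InducedInLink
    simp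
  rw [e1, e2, e3, card_univ, Fintype.card_fin] at h
  have hn' : (0 : ℝ) < n := by exact_mod_cast hn
  have h4 := mul_le_mul_of_nonneg_right h (by positivity : (0 : ℝ) ≤ (n : ℝ) ^ 4)
  have e4 : (2 * (degree H v : ℝ) / (n : ℝ) ^ 2 + μ * (6 * (H.card : ℝ) / (n : ℝ) ^ 3)) * (n : ℝ) ^ 4
      = 2 * (degree H v : ℝ) * (n : ℝ) ^ 2 + μ * (6 * (H.card : ℝ) * n) := by
    field_simp
  have e5 : (β + 4000 * ((linkCopies H F v : ℝ) / (n : ℝ) ^ 4 + 10 / n)) * (n : ℝ) ^ 4
      = β * (n : ℝ) ^ 4 + 4000 * linkCopies H F v + 40000 * (n : ℝ) ^ 3 := by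
    field_simp
    ring
  rw [e4, e5] at h4
  exact h4

theorem table_V : ∀ p ∈ table, Pool.Agent.Q113.Lnk.VIneq p.1 p.2.1 p.2.2.1 4000 ∧
    p.2.2.1 - 5 / 9 * p.2.1 + 1 / 10000 ≤ p.2.2.2 := by
  intro p hp
  unfold table at hp
  simp only [List.mem_cons, List.not_mem_nil, or_false] at hp
  rcases hp with rfl | rfl | rfl | rfl | rfl | rfl
  · refine ⟨?_, by norm_num⟩
    have := Pool.Agent.Q113.Lnk.claw_V
    norm_num at this ⊢
    exact this
  · refine ⟨?_, by norm_num⟩
    have := Pool.Agent.Q113.Lnk.paw_V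
    norm_num at this ⊢
    exact this
  · refine ⟨?_, by norm_num⟩
    have := Pool.Agent.Q113.Lnk.fourCycle_V
    norm_num at this ⊢
    exact this
  · refine ⟨?_, by norm_num⟩
    have := Pool.Agent.Q113.Lnk.diamond_V
    norm_num at this ⊢
    exact this
  · refine ⟨?_, by norm_num⟩
    have := Pool.Agent.Q113.Lnk.oneEdge_V
    norm_num at this ⊢
    exact this
  · refine ⟨?_, by norm_num⟩
    have := Pool.Agent.Q113.Lnk.noEdge_V
    norm_num at this ⊢
    exact this

/-- First part: the inequality between the degree of a vertex, the number of edges and the number `N` of the ordered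
induced copies of `F` in the link of the vertex: `2 d n² + 6 μ |H| n ≤ β n⁴ + 4000 N + 40000 n³`. Second part: if
`H` has at least `(5/54) n³` edges, then every vertex of degree at least `θ n² / 2` (so in particular every vertex of
at least average degree, as `θ < 5/9`) has at least `10⁻⁸ n⁴` ordered induced copies of `F` in its link. -/
theorem result :
    (∀ (n : ℕ) (H : Finset (Finset (Fin n))), (∀ e ∈ H, e.card = 3) → K43Free H → ∀ v : Fin n, ∀ p ∈ table,
      2 * (degree H v : ℝ) * (n : ℝ) ^ 2 + p.2.1 * (6 * (H.card : ℝ) * n)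
        ≤ p.2.2.1 * (n : ℝ) ^ 4 + 4000 * linkCopies H p.1 v + 40000 * (n : ℝ) ^ 3) ∧
    (∀ (n : ℕ) (H : Finset (Finset (Fin n))), (∀ e ∈ H, e.card = 3) → K43Free H → 10 ^ 9 ≤ n →
      5 / 54 * (n : ℝ) ^ 3 ≤ H.card → ∀ v : Fin n, ∀ p ∈ table,
        (p.2.2.2 * (n : ℝ) ^ 2 ≤ 2 * degree H v ∨ 3 * (H.card : ℝ) ≤ n * degree H v) →
          (n : ℝ) ^ 4 ≤ 100000000 * (linkCopies H p.1 v : ℝ)) := by
  refine ⟨fun n H h3 hK v p hp => main (Fin.pos v) H h3 hK v (table_V p hp).1, ?_⟩
  intro n H h3 hK hn hH v p hp hd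
  have hθ : p.2.2.2 ≤ 5 / 9 := by
    unfold table at hp
    simp only [List.mem_cons, List.not_mem_nil, or_false] at hp
    rcases hp with rfl | rfl | rfl | rfl | rfl | rfl <;> norm_num
  have hμ : 0 ≤ p.2.1 := by
    unfold table at hp
    simp only [List.mem_cons, List.not_mem_nil, or_false] at hp
    rcases hp with rfl | rfl | rfl | rfl | rfl | rfl <;> norm_num
  obtain ⟨hV, hb⟩ := table_V p hp
  have hm := main (Fin.pos v) H h3 hK v hV
  have hn' : (10 : ℝ) ^ 9 ≤ n := by exact_mod_cast hn
  have hn0 : (0 : ℝ) < n := lt_of_lt_of_le (by norm_num) hn'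
  have hd' : p.2.2.2 * (n : ℝ) ^ 2 ≤ 2 * degree H v := by
    rcases hd with hd | hd
    · exact hd
    · have h1 : 5 / 9 * (n : ℝ) ^ 2 * n ≤ 2 * degree H v * n := by nlinarith
      have h2 : 5 / 9 * (n : ℝ) ^ 2 ≤ 2 * degree H v := le_of_mul_le_mul_right h1 hn0
      nlinarith [sq_nonneg (n : ℝ)]
  have h1 : p.2.1 * (5 / 9 * (n : ℝ) ^ 4) ≤ p.2.1 * (6 * (H.card : ℝ) * n) := by
    refine mul_le_mul_of_nonneg_left ?_ hμ
    have := mul_le_mul_of_nonneg_right hH (by positivity : (0 : ℝ) ≤ 6 * (n : ℝ))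
    calc 5 / 9 * (n : ℝ) ^ 4 = 5 / 54 * (n : ℝ) ^ 3 * (6 * (n : ℝ)) := by ring
      _ ≤ (H.card : ℝ) * (6 * (n : ℝ)) := this
      _ = 6 * (H.card : ℝ) * n := by ring
  have h2 : p.2.2.2 * (n : ℝ) ^ 4 ≤ 2 * (degree H v : ℝ) * (n : ℝ) ^ 2 := by
    have := mul_le_mul_of_nonneg_right hd' (by positivity : (0 : ℝ) ≤ (n : ℝ) ^ 2)
    calc p.2.2.2 * (n : ℝ) ^ 4 = p.2.2.2 * (n : ℝ) ^ 2 * (n : ℝ) ^ 2 := by ring
      _ ≤ _ := this
  have h3' : (p.2.2.1 - 5 / 9 * p.2.1 + 1 / 10000) * (n : ℝ) ^ 4 ≤ p.2.2.2 * (n : ℝ) ^ 4 :=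
    mul_le_mul_of_nonneg_right hb (by positivity)
  have h4 : 40000 * (n : ℝ) ^ 3 * 25000 ≤ (n : ℝ) ^ 4 := by
    have : (10 : ℝ) ^ 9 * (n : ℝ) ^ 3 ≤ n * (n : ℝ) ^ 3 := mul_le_mul_of_nonneg_right hn' (by positivity)
    calc 40000 * (n : ℝ) ^ 3 * 25000 = (10 : ℝ) ^ 9 * (n : ℝ) ^ 3 := by ring
      _ ≤ n * (n : ℝ) ^ 3 := this
      _ = (n : ℝ) ^ 4 := by ring
  have h5 : 0 < (n : ℝ) ^ 4 := by positivity
  linarith

end Pool.Agent.Results.MP_466853_co.LinkOfOneVertex
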