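import Pool.Agent.Q113.Hyb.LinkFin

/-!
# Turán's `(3,4)`-problem: conditions on the links of a small part of the vertices

Turán's conjecture says that a `K_4^3`-free 3-graph on `n` vertices has at most `(5/54 + o(1)) n³` edges. The
link of a vertex `v` is the graph of the pairs which form an edge with `v`. In Turán's construction the
link of every vertex has induced 4-cycles, claws, paws, diamonds, complete graphs `K_4`, and edges with
two isolated vertices. Here it is proved that the density is at most `5/9 - 1/15000 + o(1)` if, for one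
of these six graphs `F`, the links of a certain proportion of the vertices have no induced copies
of `F` (or `o(n⁴)` copies per vertex):

* one fifteenth of the vertices for the 4-cycle (for example, if one fifteenth of the vertices have
  chordal links), one sixteenth for the claw, one eleventh for the paw, one quarter for the diamond,
  thirteen twentieths for `K_4`, and two fifths for the edge with two isolated vertices.

So in a counterexample to Turán's conjecture more than `14/15` of the vertices have many induced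
4-cycles in their links, more than `15/16` have many induced claws, and so on.

Outline: combination of the order-seven certificate of the library, in which squares at triples remain,
with six sum of squares certificates for 3-graphs of order five in which the vertices of the set `U` are
coloured; these certificates bound the squares from below.
-/

set_option autoImplicit false
open Finset
open scoped Classical

namespace Pool.Agent.Results.MP_466853_co.LinksOfFewVertices

/-- The 3-graph `H` has no four vertices spanning all four triples. -/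
def K43Free {n : ℕ} (H : Finset (Finset (Fin n))) : Prop :=
  ∀ S : Finset (Fin n), S.card = 4 → ∃ T ⊆ S, T.card = 3 ∧ T ∉ H

/-- The link of the vertex `v` in the 3-graph `H` induces a graph isomorphic to `F` (a graph with the
vertices `0, 1, 2, 3`, given by its edges) on the four different vertices `f 0, f 1, f 2, f 3`, which are
different from `v`. -/
def InducedInLink {n : ℕ} (H : Finset (Finset (Fin n))) (F : Finset (Finset (Fin 4))) (v : Fin n)
    (f : Fin 4 → Fin n) : Prop :=
  Function.Injective f ∧ (∀ i, f i ≠ v) ∧ ∃ σ : Equiv.Perm (Fin 4), ∀ i j : Fin 4, i ≠ j →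
    (({v, f i, f j} : Finset (Fin n)) ∈ H ↔ ({σ i, σ j} : Finset (Fin 4)) ∈ F)

/-- The number of ordered quadruples in the links of the vertices in `U` which induce a copy of `F`
(every induced copy of `F` is counted 24 times). -/
noncomputable def linkCopies {n : ℕ} (H : Finset (Finset (Fin n))) (F : Finset (Finset (Fin 4)))
    (U : Finset (Fin n)) : ℕ :=
  ((univ : Finset (Fin n × (Fin 4 → Fin n))).filter fun p => p.1 ∈ U ∧ InducedInLink H F p.1 p.2).card

/-- the cycle with four vertices -/
def fourCycle : Finset (Finset (Fin 4)) := {{0, 1}, {1, 2}, {2, 3}, {0, 3}}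
/-- the claw `K_{1,3}` -/
def claw : Finset (Finset (Fin 4)) := {{0, 1}, {0, 2}, {0, 3}}
/-- the paw, a triangle with a pendant edge -/
def paw : Finset (Finset (Fin 4)) := {{0, 1}, {0, 2}, {1, 2}, {0, 3}}
/-- the diamond `K_4^-` -/
def diamond : Finset (Finset (Fin 4)) := {{0, 2}, {1, 2}, {0, 3}, {1, 3}, {2, 3}}
/-- the complete graph `K_4` -/
def clique : Finset (Finset (Fin 4)) := {{0, 1}, {0, 2}, {1, 2}, {0, 3}, {1, 3}, {2, 3}}
/-- an edge with two isolated vertices -/
def oneEdge : Finset (Finset (Fin 4)) := {{0, 1}}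

/-- The six graphs with the proportions of the vertices. -/
noncomputable def table : List (Finset (Finset (Fin 4)) × ℝ) :=
  [(fourCycle, 1 / 15), (claw, 1 / 16), (paw, 1 / 11), (diamond, 1 / 4), (clique, 13 / 20), (oneEdge, 2 / 5)]

theorem main {n : ℕ} (H : Finset (Finset (Fin n))) (h3 : ∀ e ∈ H, e.card = 3) (hK : K43Free H)
    (U : Finset (Fin n)) (p : Finset (Finset (Fin 4)) × ℝ) (hp : p ∈ table) (hU : p.2 * (n : ℝ) ≤ U.card) :
    6 * (H.card : ℝ) * (n : ℝ) ^ 2 ≤
      (5 / 9 - 1 / 15000) * (n : ℝ) ^ 5 + 2000 * linkCopies H p.1 U + 20000 * (n : ℝ) ^ 4 := by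
  have hfree : Pool.Agent.H122R2.N6.K43Free H := hK
  unfold table at hp
  simp only [List.mem_cons, List.not_mem_nil, or_false] at hp
  rcases hp with rfl | rfl | rfl | rfl | rfl | rfl
  · exact Pool.Agent.Q113.Hyb.fourCycle_fin h3 hfree U hU
  · exact Pool.Agent.Q113.Hyb.claw_fin h3 hfree U hU
  · exact Pool.Agent.Q113.Hyb.paw_fin h3 hfree U hU
  · exact Pool.Agent.Q113.Hyb.diamond_fin h3 hfree U hU
  · exact Pool.Agent.Q113.Hyb.clique_fin h3 hfree U hU
  · exact Pool.Agent.Q113.Hyb.oneEdge_fin h3 hfree U hU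

theorem copies_sum {n : ℕ} (H : Finset (Finset (Fin n))) (F : Finset (Finset (Fin 4))) (U : Finset (Fin n)) :
    linkCopies H F U = ∑ v ∈ U, linkCopies H F {v} := by
  unfold linkCopies
  rw [card_eq_sum_card_fiberwise (f := Prod.fst) (t := U) (fun p hp => (mem_filter.mp (mem_coe.mp hp)).2.1)]
  refine sum_congr rfl fun v hv => ?_
  rw [filter_filter]
  congr 1
  ext p
  simp only [mem_filter, mem_univ, true_and, mem_singleton]
  constructor
  · rintro ⟨⟨_, h2⟩, h3⟩
    exact ⟨h3, h2⟩
  · rintro ⟨h3, h2⟩
    exact ⟨⟨h3 ▸ hv, h2⟩, h3⟩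

/-- First part: if the set `U` contains the given proportion of the vertices, then the density of `H` is at
most `5/9 - 1/15000`, up to the error term `20000 / n` and a multiple of the density of the induced copies
of `F` in the links of the vertices in `U`. Second part: if `H` has at least `(5/54) n³` edges, then all
but a small proportion of the vertices have at least `10⁻⁸ n⁴` ordered induced copies of `F` in their
links. -/
theorem result :
    (∀ (n : ℕ) (H : Finset (Finset (Fin n))), (∀ e ∈ H, e.card = 3) → K43Free H → ∀ U : Finset (Fin n),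
      ∀ p ∈ table, p.2 * (n : ℝ) ≤ U.card →
        6 * (H.card : ℝ) * (n : ℝ) ^ 2 ≤
          (5 / 9 - 1 / 15000) * (n : ℝ) ^ 5 + 2000 * linkCopies H p.1 U + 20000 * (n : ℝ) ^ 4) ∧
    (∀ (n : ℕ) (H : Finset (Finset (Fin n))), (∀ e ∈ H, e.card = 3) → K43Free H → 10 ^ 9 ≤ n →
      5 / 54 * (n : ℝ) ^ 3 ≤ H.card → ∀ p ∈ table,
        ((univ.filter fun v : Fin n => 100000000 * (linkCopies H p.1 {v} : ℝ) < (n : ℝ) ^ 4).card : ℝ) < p.2 * n) := by
  refine ⟨fun n H h3 hK U p hp hU => main H h3 hK U p hp hU, ?_⟩
  intro n H h3 hK hn hH p hp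
  by_contra hcon
  push Not at hcon
  have hm := main H h3 hK _ p hp hcon
  set U := univ.filter fun v : Fin n => 100000000 * (linkCopies H p.1 {v} : ℝ) < (n : ℝ) ^ 4 with hU
  have hn' : (10 : ℝ) ^ 9 ≤ n := by exact_mod_cast hn
  have hn0 : (0 : ℝ) < n := lt_of_lt_of_le (by norm_num) hn'
  have hUn : (U.card : ℝ) ≤ n := by
    have := card_le_univ U
    rw [Fintype.card_fin] at this
    exact_mod_cast this
  have hc : 100000000 * (linkCopies H p.1 U : ℝ) ≤ (n : ℝ) ^ 5 := by
    rw [copies_sum]
    push_cast
    rw [mul_sum]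
    calc ∑ v ∈ U, 100000000 * (linkCopies H p.1 {v} : ℝ) ≤ ∑ _v ∈ U, (n : ℝ) ^ 4 :=
          sum_le_sum fun v hv => (mem_filter.mp hv).2.le
      _ = U.card * (n : ℝ) ^ 4 := by rw [sum_const, nsmul_eq_mul]
      _ ≤ n * (n : ℝ) ^ 4 := mul_le_mul_of_nonneg_right hUn (by positivity)
      _ = (n : ℝ) ^ 5 := by ring
  have h1 : 5 / 9 * (n : ℝ) ^ 5 ≤ 6 * (H.card : ℝ) * (n : ℝ) ^ 2 := by
    have := mul_le_mul_of_nonneg_right hH (by positivity : (0 : ℝ) ≤ 6 * (n : ℝ) ^ 2)
    calc 5 / 9 * (n : ℝ) ^ 5 = 5 / 54 * (n : ℝ) ^ 3 * (6 * (n : ℝ) ^ 2) := by ring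
      _ ≤ H.card * (6 * (n : ℝ) ^ 2) := this
      _ = 6 * (H.card : ℝ) * (n : ℝ) ^ 2 := by ring
  have h2 : 20000 * (n : ℝ) ^ 4 * 50000 ≤ (n : ℝ) ^ 5 := by
    have : (10 : ℝ) ^ 9 * (n : ℝ) ^ 4 ≤ n * (n : ℝ) ^ 4 := mul_le_mul_of_nonneg_right hn' (by positivity)
    calc 20000 * (n : ℝ) ^ 4 * 50000 = (10 : ℝ) ^ 9 * (n : ℝ) ^ 4 := by ring
      _ ≤ n * (n : ℝ) ^ 4 := this
      _ = (n : ℝ) ^ 5 := by ring
  have h3' : 0 < (n : ℝ) ^ 5 := by positivity
  linarith

end Pool.Agent.Results.MP_466853_co.LinksOfFewVertices
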