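import Pool.Agent.Q133.SX.Cls
import Pool.Agent.Q133.SX.Tur
import Pool.Agent.Q133.SX.CAFin
import Pool.Agent.Q133.SX.CN4Fin
import Pool.Agent.Q133.SX.CN3Fin
import Pool.Agent.Q133.SX.CN2Fin
import Pool.Agent.Q133.SX.CN1Fin
import Pool.Agent.Q133.SX.CS1Fin
import Pool.Agent.Q133.SX.CS2Fin
import Pool.Agent.Q133.SX.CB3Fin
import Pool.Agent.Q133.SX.CB4Fin
import Pool.Agent.Q133.SX.CB5Fin

set_option autoImplicit false
set_option maxRecDepth 100000

namespace Pool.Agent.Results.MP_466853_co.SixVertexSubgraphs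
open Finset Pool.Agent.H122R2.N6 Pool.Agent.Q133.SX
open scoped Classical

/-- the 14-edge graph: three pairs of vertices, the triples across the pairs and those with two vertices in one pair and one in the next -/
def T6 : Finset (Finset (Fin 6)) :=
  {{0, 1, 2}, {0, 1, 3}, {0, 2, 4}, {1, 2, 4}, {0, 3, 4}, {1, 3, 4}, {2, 3, 4}, {0, 2, 5}, {1, 2, 5}, {0, 3, 5}, {1, 3, 5}, {2, 3, 5}, {0, 4, 5}, {1, 4, 5}}

/-- 13 edges -/
def G13 : Finset (Finset (Fin 6)) :=
  {{0, 1, 2}, {0, 2, 3}, {1, 2, 3}, {0, 2, 4}, {1, 2, 4}, {0, 3, 4}, {1, 3, 4}, {0, 2, 5}, {1, 2, 5}, {0, 3, 5}, {1, 3, 5}, {0, 4, 5}, {1, 4, 5}}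

/-- 12 edges -/
def G12 : Finset (Finset (Fin 6)) :=
  {{0, 1, 3}, {0, 2, 3}, {1, 2, 3}, {0, 1, 4}, {0, 2, 4}, {1, 2, 4}, {0, 3, 4}, {0, 1, 5}, {0, 2, 5}, {1, 2, 5}, {0, 3, 5}, {0, 4, 5}}

/-- the ten triples through one vertex -/
def J5 : Finset (Finset (Fin 6)) :=
  {{0, 1, 2}, {0, 1, 3}, {0, 2, 3}, {0, 1, 4}, {0, 2, 4}, {0, 3, 4}, {0, 1, 5}, {0, 2, 5}, {0, 3, 5}, {0, 4, 5}}

/-- 12 edges -/
def S1 : Finset (Finset (Fin 6)) :=
  {{0, 1, 2}, {0, 1, 3}, {1, 2, 3}, {0, 2, 4}, {1, 2, 4}, {0, 3, 4}, {1, 3, 4}, {0, 2, 5}, {1, 2, 5}, {0, 3, 5}, {1, 3, 5}, {0, 4, 5}}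

/-- 12 edges -/
def S2 : Finset (Finset (Fin 6)) :=
  {{0, 1, 2}, {0, 1, 3}, {0, 2, 3}, {0, 1, 4}, {0, 2, 4}, {2, 3, 4}, {0, 2, 5}, {1, 2, 5}, {0, 3, 5}, {1, 3, 5}, {0, 4, 5}, {1, 4, 5}}

/-- 11 edges -/
def R1 : Finset (Finset (Fin 6)) :=
  {{0, 1, 2}, {0, 1, 3}, {0, 1, 4}, {1, 2, 4}, {0, 3, 4}, {2, 3, 4}, {0, 2, 5}, {1, 2, 5}, {0, 3, 5}, {1, 3, 5}, {0, 4, 5}}

/-- 10 edges -/
def R2 : Finset (Finset (Fin 6)) :=
  {{1, 2, 3}, {0, 1, 4}, {1, 2, 4}, {0, 3, 4}, {2, 3, 4}, {0, 2, 5}, {1, 2, 5}, {0, 3, 5}, {1, 3, 5}, {0, 4, 5}}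

/-- 11 edges -/
def R3 : Finset (Finset (Fin 6)) :=
  {{0, 1, 2}, {0, 1, 3}, {0, 2, 3}, {1, 2, 4}, {0, 3, 4}, {1, 3, 4}, {2, 3, 4}, {0, 2, 5}, {1, 2, 5}, {1, 3, 5}, {0, 4, 5}}

/-- 13 edges -/
def T1 : Finset (Finset (Fin 6)) :=
  {{0, 2, 3}, {1, 2, 3}, {0, 1, 4}, {0, 2, 4}, {1, 2, 4}, {0, 3, 4}, {1, 3, 4}, {0, 1, 5}, {0, 2, 5}, {1, 2, 5}, {0, 3, 5}, {1, 3, 5}, {0, 4, 5}}

/-- 13 edges -/
def T2 : Finset (Finset (Fin 6)) :=
  {{0, 1, 2}, {0, 1, 3}, {1, 2, 3}, {0, 1, 4}, {0, 2, 4}, {0, 3, 4}, {2, 3, 4}, {0, 2, 5}, {1, 2, 5}, {0, 3, 5}, {1, 3, 5}, {0, 4, 5}, {1, 4, 5}}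

/-- 13 edges -/
def T3 : Finset (Finset (Fin 6)) :=
  {{0, 1, 2}, {0, 2, 3}, {1, 2, 3}, {0, 1, 4}, {1, 2, 4}, {0, 3, 4}, {2, 3, 4}, {0, 2, 5}, {1, 2, 5}, {0, 3, 5}, {1, 3, 5}, {0, 4, 5}, {1, 4, 5}}

/-- nine 3-graphs and one family of three, each with its number -/
def table : List (List (Finset (Finset (Fin 6))) × ℕ) :=
  [([T6], 98), ([G13], 96), ([G12], 97), ([J5], 97), ([S1], 100), ([S2], 100), ([R1], 100), ([R2], 100), ([R3], 100), ([T1, T2, T3], 100)]

/-- the members of the sharp families: those with the number 100 -/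
def sharp : List (Finset (Finset (Fin 6))) := [S1, S2, R1, R2, R3, T1, T2, T3]

theorem nS1 : NoCol S1 := by decide +kernel
theorem nS2 : NoCol S2 := by decide +kernel
theorem nR1 : NoCol R1 := by decide +kernel
theorem nR2 : NoCol R2 := by decide +kernel
theorem nR3 : NoCol R3 := by decide +kernel
theorem nT1 : NoCol T1 := by decide +kernel
theorem nT2 : NoCol T2 := by decide +kernel
theorem nT3 : NoCol T3 := by decide +kernel

theorem noCols : ∀ F ∈ sharp, NoCol F := by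
  intro F hF
  simp only [sharp, List.mem_cons, List.not_mem_nil, or_false] at hF
  rcases hF with rfl | rfl | rfl | rfl | rfl | rfl | rfl | rfl
  exacts [nS1, nS2, nR1, nR2, nR3, nT1, nT2, nT3]

theorem part_three (m : ℕ) : ∃ H : Finset (Finset (Fin 3 × Fin m)), (∀ e ∈ H, e.card = 3) ∧
    K43Free H ∧ 54 * H.card + 9 * (3 * m) ^ 2 = 5 * (3 * m) ^ 3 ∧
    ∀ F ∈ sharp, ∀ S, ¬ Spans F H S := by
  refine ⟨tur m, tur_unif m, tur_free m, ?_, fun F hF S => tur_noF (noCols F hF) m S⟩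
  rw [tur_card]
  have h1 : 2 * m.choose 2 + m = m * m := by
    rw [Nat.choose_two_right]
    rcases m with _ | k
    · rfl
    · have h2 := Nat.div_mul_cancel (Nat.even_mul_pred_self (k + 1)).two_dvd
      have h3 : (k + 1) * (k + 1 - 1) + (k + 1) = (k + 1) * (k + 1) := by
        rw [Nat.add_sub_cancel]; ring
      omega
  have h2 : m.choose 2 * 2 * m + m * m = m * m * m := by
    calc m.choose 2 * 2 * m + m * m = (2 * m.choose 2 + m) * m := by ring
      _ = m * m * m := by rw [h1]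
  nlinarith [h2]

theorem free_bound {V : Type} [Fintype V] {H : Finset (Finset V)} (hH : ∀ e ∈ H, e.card = 3)
    (h : 1080 * Fintype.card V ^ 3 * H.card ≤ 100 * Fintype.card V ^ 6) :
    54 * H.card ≤ 5 * Fintype.card V ^ 3 := by
  rcases Nat.eq_zero_or_pos (Fintype.card V) with h0 | h0
  · have h1 : H = ∅ := by
      rw [eq_empty_iff_forall_notMem]
      intro e he
      have h2 := hH e he
      have h3 := card_le_univ e
      omega
    rw [h1, card_empty]
    omega
  · have h1 : 0 < 20 * Fintype.card V ^ 3 := by positivity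
    refine Nat.le_of_mul_le_mul_left ?_ h1
    calc 20 * Fintype.card V ^ 3 * (54 * H.card) = 1080 * Fintype.card V ^ 3 * H.card := by ring
      _ ≤ 100 * Fintype.card V ^ 6 := h
      _ = 20 * Fintype.card V ^ 3 * (5 * Fintype.card V ^ 3) := by ring

theorem part_one : ∀ p ∈ table, ∀ (V : Type) [Fintype V] (H : Finset (Finset V)),
    (∀ e ∈ H, e.card = 3) → K43Free H →
    1080 * Fintype.card V ^ 3 * H.card ≤ p.2 * Fintype.card V ^ 6 +
      432000 * (((univ : Finset V).powersetCard 6).filter fun S => SpansL p.1 H S).card := by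
  intro p hp V _ H hH hF
  simp only [table, List.mem_cons, List.not_mem_nil, or_false] at hp
  rcases hp with rfl | rfl | rfl | rfl | rfl | rfl | rfl | rfl | rfl | rfl
  · exact (CN4.main hH hF).trans (Nat.add_le_add_left (Nat.mul_le_mul_right _ (by norm_num)) _)
  · exact (CN3.main hH hF).trans (Nat.add_le_add_left (Nat.mul_le_mul_right _ (by norm_num)) _)
  · exact (CN2.main hH hF).trans (Nat.add_le_add_left (Nat.mul_le_mul_right _ (by norm_num)) _)
  · exact (CN1.main hH hF).trans (Nat.add_le_add_left (Nat.mul_le_mul_right _ (by norm_num)) _)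
  · exact (CS1.main hH hF).trans (Nat.add_le_add_left (Nat.mul_le_mul_right _ (by norm_num)) _)
  · exact (CS2.main hH hF).trans (Nat.add_le_add_left (Nat.mul_le_mul_right _ (by norm_num)) _)
  · exact (CB3.main hH hF).trans (Nat.add_le_add_left (Nat.mul_le_mul_right _ (by norm_num)) _)
  · exact (CB4.main hH hF).trans (Nat.add_le_add_left (Nat.mul_le_mul_right _ (by norm_num)) _)
  · exact (CB5.main hH hF).trans (Nat.add_le_add_left (Nat.mul_le_mul_right _ (by norm_num)) _)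
  · exact (CA.main hH hF).trans (Nat.add_le_add_left (Nat.mul_le_mul_right _ (by norm_num)) _)

/-- **Turán's problem for K4 with one more forbidden six-vertex subgraph.**

First part: for each of the ten listed families of 3-graphs on six vertices, a 3-graph `H` without K4 has
`1080 n ^ 3 |H| ≤ λ n ^ 6 + 432000 N`, where `N` is the number of six-vertex sets which span a copy
(not necessarily induced) of a member of the family and `λ ≤ 100` is the number listed with it.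

Second part: for each 3-graph `F` on six vertices with at most eight edges and without K4, a 3-graph on `n`
vertices without K4 and without a copy of `F` has at most `5 n ^ 3 / 54` edges.

Third part: on `n = 3 m` vertices there is a 3-graph (Turán's construction) without K4 and without a copy
of the members of the families with `λ = 100`, and it has `(5 n ^ 3 - 9 n ^ 2) / 54` edges. -/
theorem result :
    (∀ p ∈ table, ∀ (V : Type) [Fintype V] (H : Finset (Finset V)),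
      (∀ e ∈ H, e.card = 3) → K43Free H →
      1080 * Fintype.card V ^ 3 * H.card ≤ p.2 * Fintype.card V ^ 6 +
        432000 * (((univ : Finset V).powersetCard 6).filter fun S => SpansL p.1 H S).card) ∧
    (∀ F : Finset (Finset (Fin 6)), (∀ t ∈ F, t.card = 3) → K43Free F → F.card ≤ 8 →
      ∀ (V : Type) [Fintype V] (H : Finset (Finset V)), (∀ e ∈ H, e.card = 3) → K43Free H →
      (∀ S : Finset V, ¬ Spans F H S) → 54 * H.card ≤ 5 * Fintype.card V ^ 3) ∧
    (∀ m : ℕ, ∃ H : Finset (Finset (Fin 3 × Fin m)), (∀ e ∈ H, e.card = 3) ∧ K43Free H ∧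
      54 * H.card + 9 * (3 * m) ^ 2 = 5 * (3 * m) ^ 3 ∧ ∀ F ∈ sharp, ∀ S, ¬ Spans F H S) := by
  refine ⟨part_one, ?_, part_three⟩
  intro F hu hK h8 V _ H hH hF hfree
  obtain ⟨G, hG, g, hg, hsub⟩ := part_of_six hu hK h8
  have hmem : ∃ lam ≤ 100, ([G], lam) ∈ table := by
    simp only [F6L, List.mem_cons, List.not_mem_nil, or_false] at hG
    rcases hG with rfl | rfl | rfl | rfl | rfl | rfl | rfl
    · exact ⟨98, by norm_num, List.mem_cons_self⟩
    · exact ⟨96, by norm_num, List.mem_cons_of_mem _ List.mem_cons_self⟩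
    · exact ⟨97, by norm_num, List.mem_cons_of_mem _ (List.mem_cons_of_mem _ List.mem_cons_self)⟩
    · exact ⟨100, le_rfl, List.mem_cons_of_mem _ (List.mem_cons_of_mem _ (List.mem_cons_of_mem _
        (List.mem_cons_of_mem _ List.mem_cons_self)))⟩
    · exact ⟨100, le_rfl, List.mem_cons_of_mem _ (List.mem_cons_of_mem _ (List.mem_cons_of_mem _
        (List.mem_cons_of_mem _ (List.mem_cons_of_mem _ List.mem_cons_self))))⟩
    · exact ⟨100, le_rfl, List.mem_cons_of_mem _ (List.mem_cons_of_mem _ (List.mem_cons_of_mem _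
        (List.mem_cons_of_mem _ (List.mem_cons_of_mem _ (List.mem_cons_of_mem _
        (List.mem_cons_of_mem _ List.mem_cons_self))))))⟩
    · exact ⟨100, le_rfl, List.mem_cons_of_mem _ (List.mem_cons_of_mem _ (List.mem_cons_of_mem _
        (List.mem_cons_of_mem _ (List.mem_cons_of_mem _ (List.mem_cons_of_mem _
        (List.mem_cons_of_mem _ (List.mem_cons_of_mem _ List.mem_cons_self)))))))⟩
  obtain ⟨lam, hlam, hp⟩ := hmem
  have h1 := part_one _ hp V H hH hF
  have h2 : (((univ : Finset V).powersetCard 6).filter fun S => SpansL [G] H S) = ∅ := by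
    rw [filter_eq_empty_iff]
    rintro S - ⟨G', hG', hS⟩
    rw [List.mem_singleton] at hG'
    subst hG'
    exact hfree S (spans_mono hg hsub hS)
  dsimp only at h1
  rw [h2, card_empty, Nat.mul_zero, Nat.add_zero] at h1
  exact free_bound hH (h1.trans (Nat.mul_le_mul_right _ hlam))

end Pool.Agent.Results.MP_466853_co.SixVertexSubgraphs
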