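import Pool.Agent.Q113.Cov.Ind
import Pool.Agent.Q113.Cov.Cnt

/-!
# Turán's `(3,4)`-problem for 3-graphs with a strongly independent set of `n/15` vertices

A set `U` of vertices of a 3-graph is strongly independent if every edge contains at most one vertex
of `U`. Let `H` be a `K_4^3`-free 3-graph on `n` vertices with a strongly independent set of at least
`n/15` vertices. Then `6 |H| ≤ (5/9 - 1/25000) n³`, so for large `n` it has fewer edges than Turán's
construction. More generally, if the vertices have weights `w ≥ 0` and at least one fifteenth of the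
weight is on a strongly independent set, then
`∑_{e ∈ H} ∏_{v ∈ e} w(v) ≤ (5/54 - 1/150000) (∑ w)³`.

Outline: take a maximizer of the Lagrangian polynomial among the weights with at least `1/15` of the
weight on `U`. With minimal support it has only one vertex `u` of `U` in its support. The order-seven
certificate of the library is applied to it; its squares at triples of vertices two of which are `u` are
bounded from below. This needs a lower bound for the degree of `u`, which is clear if the weight of `u` is
more than `1/15`; otherwise it follows from the bound `0.55756` of the library for the weights in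
which the weight of `u` is halved.
-/

set_option autoImplicit false
open Finset
open scoped Classical

namespace Pool.Agent.Results.MP_466853_co.StronglyIndependentSet

/-- The 3-graph `H` has no four vertices spanning all four triples. -/
def K43Free {n : ℕ} (H : Finset (Finset (Fin n))) : Prop :=
  ∀ S : Finset (Fin n), S.card = 4 → ∃ T ⊆ S, T.card = 3 ∧ T ∉ H

/-- Every edge of `H` has at most one vertex in `U`. -/
def StronglyIndependent {n : ℕ} (H : Finset (Finset (Fin n))) (U : Finset (Fin n)) : Prop :=
  ∀ e ∈ H, (e ∩ U).card ≤ 1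

open Pool.Agent.Q113.Cov Pool.Agent.H122R2.N6

theorem tri_U {n : ℕ} {H : Finset (Finset (Fin n))} (h3 : ∀ e ∈ H, e.card = 3) {U : Finset (Fin n)}
    (hU : StronglyIndependent H U) {u v : Fin n} (hu : u ∈ U) (hv : v ∈ U) (x : Fin n) :
    tri H u v x = 0 := by
  by_cases huv : u = v
  · exact tri_zero h3 (Or.inl huv)
  · unfold tri
    rw [if_neg]
    intro hm
    exact huv (card_le_one.mp (hU _ hm) u (mem_inter.mpr ⟨by simp, hu⟩) v (mem_inter.mpr ⟨by simp, hv⟩))

/-- A `K_4^3`-free 3-graph with weights on the vertices, of which at least one fifteenth is on a strongly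
independent set `U`, has Lagrangian density at most `5/9 - 1/25000`. With weights `1`: if
`15 |U| ≥ n` then `6 |H| ≤ (5/9 - 1/25000) n³`. -/
theorem result {n : ℕ} (H : Finset (Finset (Fin n))) (h3 : ∀ e ∈ H, e.card = 3) (hK : K43Free H)
    (U : Finset (Fin n)) (hU : StronglyIndependent H U)
    (w : Fin n → ℝ) (hw : ∀ v, 0 ≤ w v) (hwU : ∑ v, w v ≤ 15 * ∑ u ∈ U, w u) :
    ∑ e ∈ H, ∏ v ∈ e, w v ≤ (5 / 54 - 1 / 150000) * (∑ v, w v) ^ 3 := by
  have hs0 : 0 ≤ ∑ v, w v := sum_nonneg fun v _ => hw v
  rcases hs0.eq_or_lt with hs | hs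
  · have hz : ∀ v, w v = 0 := fun v =>
      (sum_eq_zero_iff_of_nonneg fun v _ => hw v).mp hs.symm v (mem_univ v)
    have h0 : ∑ e ∈ H, ∏ v ∈ e, w v = 0 := by
      refine sum_eq_zero fun e he => ?_
      obtain ⟨x, hx⟩ := card_pos.mp (by rw [h3 e he]; norm_num : 0 < e.card)
      exact prod_eq_zero hx (hz x)
    rw [h0, ← hs]
    norm_num
  · set s := ∑ v, w v with hsd
    have hw' : (fun v => w v / s) ∈ stdSimplex ℝ (Fin n) := by
      refine ⟨fun v => div_nonneg (hw v) hs.le, ?_⟩
      show ∑ v, w v / s = 1
      rw [← sum_div, ← hsd, div_self hs.ne']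
    have hfree : Pool.Agent.H122R2.N6.K43Free H := hK
    have hd := indep_dens (E := tri H) (tri_sy H) (tri_noK4 h3 hfree)
      (fun x y => tri_zero h3 (Or.inl rfl)) U (fun u hu v hv x => tri_U h3 hU hu hv x) hw' (by
        rw [← sum_div, le_div_iff₀ hs]
        linarith)
    have h6 := six_weight_le (w := fun v => w v / s) h3 (fun v => div_nonneg (hw v) hs.le)
    have hscale : ∑ e ∈ H, ∏ v ∈ e, w v / s = (∑ e ∈ H, ∏ v ∈ e, w v) / s ^ 3 := by
      rw [sum_div]
      refine sum_congr rfl fun e he => ?_
      rw [prod_div_distrib, prod_const, h3 e he]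
    rw [hscale] at h6
    have hs3 : 0 < s ^ 3 := by positivity
    have hmul : (∑ e ∈ H, ∏ v ∈ e, w v) = (∑ e ∈ H, ∏ v ∈ e, w v) / s ^ 3 * s ^ 3 := by
      field_simp
    rw [hmul]
    have := mul_le_mul_of_nonneg_right (h6.trans hd) hs3.le
    linarith

end Pool.Agent.Results.MP_466853_co.StronglyIndependentSet
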